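import Mathlib

/-!
# Project HF: hyperforests in 3-uniform hypergraphs with symmetry

Definitions. Part A: pairs of vectors, the skew map `L y`, matchings. Part B: hypergraphs.
-/

set_option autoImplicit false

namespace Pool.Agent.Lib.MP_688fd0_co.HF

open Module

universe u

/-! ## Matchings of planes -/

section lin

variable {M E : Type u} [AddCommGroup M] [Module ℚ M]

/-- The span of the spaces `P e`, `e ∈ F`. -/
def sp (P : E → Submodule ℚ M) (F : Finset E) : Submodule ℚ M := ⨆ e ∈ F, P e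

/-- `F` is a matching modulo `A`. -/
def Mat (P : E → Submodule ℚ M) (A : Submodule ℚ M) (F : Finset E) : Prop :=
  finrank ℚ ↥(sp P F ⊔ A) = 2 * F.card + finrank ℚ A

/-- `F` is a maximum matching modulo `A`. -/
def Mx (P : E → Submodule ℚ M) (A : Submodule ℚ M) (F : Finset E) : Prop :=
  Mat P A F ∧ ∀ F' : Finset E, Mat P A F' → F'.card ≤ F.card

/-- No maximum matching modulo `A` can be extended by both `e` and `f` to rank `2 ν + 2`. -/
def Rl [DecidableEq E] (P : E → Submodule ℚ M) (A : Submodule ℚ M) (e f : E) : Prop :=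
  ∀ F : Finset E, Mx P A F → finrank ℚ ↥(sp P (F ∪ {e, f}) ⊔ A) ≤ 2 * F.card + 1 + finrank ℚ A

/-- The class with the label `j`. -/
def cls [Fintype E] [DecidableEq E] (b : E → E) (j : E) : Finset E :=
  Finset.univ.filter fun e => b e = j

/-- The rank modulo `A`. -/
noncomputable def rkA (P : E → Submodule ℚ M) (A : Submodule ℚ M) (F : Finset E) : ℕ :=
  finrank ℚ ↥(sp P F ⊔ A) - finrank ℚ A

end lin

/-! ## Pairs of vectors and the skew map -/

/-- A family of pairs of vectors. -/
structure Par (M E : Type u) where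
  x : E → M
  x' : E → M

namespace Par

variable {M E : Type u} [AddCommGroup M] [Module ℚ M] (D : Par M E)

/-- The space of the pair `e`. -/
def pl (e : E) : Submodule ℚ M := Submodule.span ℚ {D.x e, D.x' e}

/-- The map `g ↦ g (x e) x' e - g (x' e) x e`. -/
noncomputable def lam (e : E) : Dual ℚ M →ₗ[ℚ] M :=
  (Dual.eval ℚ M (D.x e)).smulRight (D.x' e) - (Dual.eval ℚ M (D.x' e)).smulRight (D.x e)

theorem lam_apply (e : E) (g : Dual ℚ M) : D.lam e g = g (D.x e) • D.x' e - g (D.x' e) • D.x e :=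
  rfl

/-- The skew map with the weights `y`. -/
noncomputable def L [Fintype E] (y : E → ℚ) : Dual ℚ M →ₗ[ℚ] M := ∑ e, y e • D.lam e

/-- The kernel of the skew map. -/
noncomputable def N [Fintype E] (y : E → ℚ) : Submodule ℚ (Dual ℚ M) := LinearMap.ker (D.L y)

/-- The kernel has the least possible dimension. -/
def Mn [Fintype E] (y : E → ℚ) : Prop :=
  ∀ y' : E → ℚ, finrank ℚ ↥(D.N y) ≤ finrank ℚ ↥(D.N y')

/-- The pairs modulo `A`. -/
def quo (A : Submodule ℚ M) : Par (M ⧸ A) E where
  x e := A.mkQ (D.x e)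
  x' e := A.mkQ (D.x' e)

end Par

/-- A set of weights which meets every line parallel to an axis in nothing or in a cofinite set. -/
def Good {E : Type u} [DecidableEq E] (U : Set (E → ℚ)) : Prop :=
  ∀ (y : E → ℚ) (e : E), (∃ t : ℚ, y + Pi.single e t ∈ U) →
    {t : ℚ | y + Pi.single e t ∉ U}.Finite

/-- The data of the generic weights: `U` is a good set of weights with the least kernel dimension,
no pair is degenerate, and the hyperplanes `N y ⊓ ker (lam e)` agree exactly for related pairs. -/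
structure Gen {M E : Type u} [AddCommGroup M] [Module ℚ M] [Fintype E] [DecidableEq E]
    (D : Par M E) (U : Set (E → ℚ)) : Prop where
  good : Good U
  ne : U.Nonempty
  mn : ∀ y ∈ U, D.Mn y
  nd : ∀ y ∈ U, ∀ e, ∃ g ∈ D.N y, D.lam e g ≠ 0
  rl : ∀ y ∈ U, ∀ e f, (Rl D.pl ⊥ e f ↔ ∀ g ∈ D.N y, (D.lam e g = 0 ↔ D.lam f g = 0))

/-! ## Optimal duals -/

/-- `A` with the labels `b` is an optimal dual solution with critical blocks. -/
structure OD {M E : Type u} [AddCommGroup M] [Module ℚ M] [Fintype E] [DecidableEq E]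
    (P : E → Submodule ℚ M) (A : Submodule ℚ M) (b : E → E) (r : E → ℕ) : Prop where
  le : ∀ F, Mx P ⊥ F → A ≤ sp P F
  rk : ∀ e, finrank ℚ ↥(sp P (cls b (b e)) ⊔ A) = 2 * r (b e) + 1 + finrank ℚ A
  val : ∀ F, Mx P ⊥ F → F.card = finrank ℚ A + ∑ j ∈ Finset.univ.image b, r j
  crit : ∀ e, ∀ z ∈ sp P (cls b (b e)) ⊔ A, z ∉ A →
    ∃ T ⊆ cls b (b e), Mat P A T ∧ T.card = r (b e) ∧ z ∉ sp P T ⊔ A

/-- A set `F` with exactly one linear relation `w`, which meets at least two blocks. -/
structure Cr {M E : Type u} [AddCommGroup M] [Module ℚ M] [Fintype E] [DecidableEq E]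
    (P : E → Submodule ℚ M) (b : E → E) (F : Finset E) (w : E → M) : Prop where
  card : ∀ F', Mx P ⊥ F' → F.card = F'.card + 1
  rk : finrank ℚ ↥(sp P F) + 1 = 2 * F.card
  mem : ∀ e, w e ∈ P e
  off : ∀ e, e ∉ F → w e = 0
  sum : ∑ e ∈ F, w e = 0
  two : ∃ e f, w e ≠ 0 ∧ w f ≠ 0 ∧ b e ≠ b f

/-! ## Hypergraphs -/

/-- A 3-uniform hypergraph (with named hyperedges). -/
structure HG (V E : Type u) where
  t : E → Fin 3 → V
  inj : ∀ e, Function.Injective (t e)

/-- The difference of two unit vectors. -/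
def dl {V : Type u} [DecidableEq V] (a b : V) : V → ℚ := Pi.single a 1 - Pi.single b 1

namespace HG

variable {V E : Type u} [DecidableEq V] (H : HG V E)

/-- The plane of a hyperedge. -/
def pl (e : E) : Submodule ℚ (V → ℚ) :=
  Submodule.span ℚ {dl (H.t e 0) (H.t e 1), dl (H.t e 1) (H.t e 2)}

/-- `u` and `v` are connected by the hyperedges of `F`. -/
def Con (F : Finset E) (a b : V) : Prop := dl a b ∈ sp H.pl F

omit [DecidableEq V] in
/-- An automorphism. -/
structure Aut (H : HG V E) where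
  s : Equiv.Perm V
  q : Equiv.Perm E
  comp : ∀ e, Set.range (H.t (q e)) = s '' Set.range (H.t e)

end HG

end Pool.Agent.Lib.MP_688fd0_co.HF
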