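import Pool.Agent.Lib.MP_688fd0_co.HF.Defs

/-!
# Project HF: statements of the modules

Each module `X` is a structure of statements; the file `HF/X.lean` proves `theorem x : X.{u}` from the modules it uses.
Proofs: see `PAPER.md`.
-/

set_option autoImplicit false

namespace Pool.Agent.Lib.MP_688fd0_co.HF

open Module

universe u

/-! ## Part I: matchings of planes -/

/-- Elementary facts on matchings. -/
structure BASIC : Prop where
  /-- there is a maximum matching -/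
  ex : ∀ {M E : Type u} [AddCommGroup M] [Module ℚ M] [FiniteDimensional ℚ M] [Fintype E] [DecidableEq E]
    (P : E → Submodule ℚ M) (A : Submodule ℚ M), ∃ F, Mx P A F
  /-- maximum matchings have the same size -/
  eq : ∀ {M E : Type u} [AddCommGroup M] [Module ℚ M] [FiniteDimensional ℚ M] [Fintype E] [DecidableEq E]
    (P : E → Submodule ℚ M) (A : Submodule ℚ M) (F F' : Finset E), Mx P A F → Mx P A F' → F.card = F'.card
  /-- a matching of the size of a maximum one is maximum -/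
  mx : ∀ {M E : Type u} [AddCommGroup M] [Module ℚ M] [FiniteDimensional ℚ M] [Fintype E] [DecidableEq E]
    (P : E → Submodule ℚ M) (A : Submodule ℚ M) (F F' : Finset E), Mx P A F → Mat P A F' → F.card ≤ F'.card →
    Mx P A F'
  /-- the upper bound of the rank -/
  up : ∀ {M E : Type u} [AddCommGroup M] [Module ℚ M] [FiniteDimensional ℚ M] [Fintype E] [DecidableEq E]
    (P : E → Submodule ℚ M), (∀ e, finrank ℚ (P e) ≤ 2) → ∀ (A : Submodule ℚ M) (F : Finset E),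
    finrank ℚ ↥(sp P F ⊔ A) ≤ 2 * F.card + finrank ℚ A
  /-- the rank and one more element -/
  ins : ∀ {M E : Type u} [AddCommGroup M] [Module ℚ M] [FiniteDimensional ℚ M] [Fintype E] [DecidableEq E]
    (P : E → Submodule ℚ M), (∀ e, finrank ℚ (P e) ≤ 2) → ∀ (A : Submodule ℚ M) (F : Finset E) (e : E),
    finrank ℚ ↥(sp P (insert e F) ⊔ A) ≤ finrank ℚ ↥(sp P F ⊔ A) + 2
  /-- a subset of a matching is a matching -/
  sub : ∀ {M E : Type u} [AddCommGroup M] [Module ℚ M] [FiniteDimensional ℚ M] [Fintype E] [DecidableEq E]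
    (P : E → Submodule ℚ M), (∀ e, finrank ℚ (P e) ≤ 2) → ∀ (A : Submodule ℚ M) (F T : Finset E),
    Mat P A F → T ⊆ F → Mat P A T
  /-- a matching modulo `A` is a matching modulo a smaller space -/
  mono : ∀ {M E : Type u} [AddCommGroup M] [Module ℚ M] [FiniteDimensional ℚ M] [Fintype E] [DecidableEq E]
    (P : E → Submodule ℚ M), (∀ e, finrank ℚ (P e) ≤ 2) → ∀ (A A' : Submodule ℚ M) (F : Finset E),
    Mat P A F → A' ≤ A → Mat P A' F
  /-- the planes of a matching modulo `A` -/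
  two : ∀ {M E : Type u} [AddCommGroup M] [Module ℚ M] [FiniteDimensional ℚ M] [Fintype E] [DecidableEq E]
    (P : E → Submodule ℚ M), (∀ e, finrank ℚ (P e) ≤ 2) → ∀ (A : Submodule ℚ M) (F : Finset E),
    Mat P A F → ∀ e ∈ F, finrank ℚ (P e) = 2
  /-- independence of the planes of a matching modulo `A` -/
  ind : ∀ {M E : Type u} [AddCommGroup M] [Module ℚ M] [FiniteDimensional ℚ M] [Fintype E] [DecidableEq E]
    (P : E → Submodule ℚ M), (∀ e, finrank ℚ (P e) ≤ 2) → ∀ (A : Submodule ℚ M) (F : Finset E),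
    Mat P A F → ∀ x : E → M, (∀ e ∈ F, x e ∈ P e) → ∑ e ∈ F, x e ∈ A → ∀ e ∈ F, x e = 0
  /-- the converse -/
  mat : ∀ {M E : Type u} [AddCommGroup M] [Module ℚ M] [FiniteDimensional ℚ M] [Fintype E] [DecidableEq E]
    (P : E → Submodule ℚ M) (A : Submodule ℚ M) (F : Finset E), (∀ e ∈ F, finrank ℚ (P e) = 2) →
    (∀ x : E → M, (∀ e ∈ F, x e ∈ P e) → ∑ e ∈ F, x e ∈ A → ∀ e ∈ F, x e = 0) → Mat P A F
  /-- the elements of the span -/
  mem : ∀ {M E : Type u} [AddCommGroup M] [Module ℚ M] [FiniteDimensional ℚ M] [Fintype E] [DecidableEq E]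
    (P : E → Submodule ℚ M) (F : Finset E) (z : M), z ∈ sp P F ↔
      ∃ x : E → M, (∀ e, x e ∈ P e) ∧ (∀ e, e ∉ F → x e = 0) ∧ ∑ e ∈ F, x e = z
  /-- a large submatching modulo a larger space -/
  big : ∀ {M E : Type u} [AddCommGroup M] [Module ℚ M] [FiniteDimensional ℚ M] [Fintype E] [DecidableEq E]
    (P : E → Submodule ℚ M), (∀ e, finrank ℚ (P e) ≤ 2) → ∀ (A A' : Submodule ℚ M) (F : Finset E),
    Mat P A F → A ≤ A' → ∃ T ⊆ F, Mat P A' T ∧ F.card + finrank ℚ A ≤ T.card + finrank ℚ ↥((sp P F ⊔ A) ⊓ A')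

/-- The image of the skew map. -/
structure ANN : Prop where
  skew : ∀ {M E : Type u} [AddCommGroup M] [Module ℚ M] [FiniteDimensional ℚ M] [Fintype E] [DecidableEq E]
    (D : Par M E) (y : E → ℚ) (g h : Dual ℚ M), h (D.L y g) = - g (D.L y h)
  range : ∀ {M E : Type u} [AddCommGroup M] [Module ℚ M] [FiniteDimensional ℚ M] [Fintype E] [DecidableEq E]
    (D : Par M E) (y : E → ℚ) (z : M), (∃ w, D.L y w = z) ↔ ∀ g ∈ D.N y, g z = 0
  /-- one weight is changed -/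
  single : ∀ {M E : Type u} [AddCommGroup M] [Module ℚ M] [FiniteDimensional ℚ M] [Fintype E] [DecidableEq E]
    (D : Par M E) (y : E → ℚ) (e : E) (t : ℚ) (g : Dual ℚ M),
    D.L (y + Pi.single e t) g = D.L y g + t • D.lam e g
  /-- the pair `e` is not degenerate on `g` -/
  lam : ∀ {M E : Type u} [AddCommGroup M] [Module ℚ M] [FiniteDimensional ℚ M] [Fintype E] [DecidableEq E]
    (D : Par M E) (e : E) (g : Dual ℚ M), D.lam e g ≠ 0 →
    finrank ℚ (D.pl e) = 2 ∧ ∀ h : Dual ℚ M, (D.lam e h = 0 ↔ ∀ z ∈ D.pl e, h z = 0)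

/-- Generic weights: the pairs have rank at most one on the kernel. -/
structure COLL : Prop where
  iso : ∀ {M E : Type u} [AddCommGroup M] [Module ℚ M] [FiniteDimensional ℚ M] [Fintype E] [DecidableEq E]
    (D : Par M E) (y : E → ℚ), D.Mn y → ∀ e, ∀ g ∈ D.N y, ∀ h ∈ D.N y, h (D.lam e g) = 0
  one : ∀ {M E : Type u} [AddCommGroup M] [Module ℚ M] [FiniteDimensional ℚ M] [Fintype E] [DecidableEq E]
    (D : Par M E) (y : E → ℚ), D.Mn y → ∀ e, ∀ g ∈ D.N y, ∀ g0 ∈ D.N y, D.lam e g0 ≠ 0 →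
    ∃ c : ℚ, D.lam e g = c • D.lam e g0

/-- The change of one weight. -/
structure MOVE : Prop where
  move : ∀ {M E : Type u} [AddCommGroup M] [Module ℚ M] [FiniteDimensional ℚ M] [Fintype E] [DecidableEq E]
    (D : Par M E) (y : E → ℚ), D.Mn y → ∀ e, ∀ g0 ∈ D.N y, D.lam e g0 ≠ 0 →
    ∃ φ : Dual ℚ M, D.L y φ = - D.lam e g0 ∧ D.lam e φ = 0 ∧
      ∀ t : ℚ, D.Mn (y + Pi.single e t) ∧ ∀ w : Dual ℚ M, w ∈ D.N (y + Pi.single e t) ↔
        ∃ g ∈ D.N y, ∃ c : ℚ, D.lam e g = c • D.lam e g0 ∧ w = g + (t * c) • φ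

/-- Good sets. -/
structure GOODS : Prop where
  inter : ∀ {E ι : Type u} [Fintype E] [DecidableEq E] (s : Finset ι) (W : ι → Set (E → ℚ)),
    (∀ i ∈ s, Good (W i)) → (∀ i ∈ s, (W i).Nonempty) →
    Good (⋂ i ∈ s, W i) ∧ (⋂ i ∈ s, W i).Nonempty
  two : ∀ {E : Type u} [Fintype E] [DecidableEq E] (W W' : Set (E → ℚ)),
    Good W → Good W' → Good (W ∩ W') ∧ (W.Nonempty → W'.Nonempty → (W ∩ W').Nonempty)
  path : ∀ {E : Type u} [Fintype E] [DecidableEq E] (W : Set (E → ℚ)), Good W → ∀ R : (E → ℚ) → Prop,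
    (∀ y ∈ W, ∀ (e : E) (t : ℚ), y + Pi.single e t ∈ W → R y → R (y + Pi.single e t)) →
    ∀ y ∈ W, ∀ y' ∈ W, R y → R y'

/-- Sets of weights with a small kernel are good. -/
structure OPEN : Prop where
  good : ∀ {X Y E : Type u} [AddCommGroup X] [Module ℚ X] [FiniteDimensional ℚ X] [AddCommGroup Y] [Module ℚ Y]
    [FiniteDimensional ℚ Y] [Fintype E] [DecidableEq E] (Q0 : X →ₗ[ℚ] Y) (Q : E → X →ₗ[ℚ] Y) (m : ℕ),
    Good {y : E → ℚ | finrank ℚ ↥(LinearMap.ker (Q0 + ∑ e, y e • Q e)) ≤ m}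

/-- The weights `1` on `F`. -/
def one {E : Type u} [DecidableEq E] (F : Finset E) : E → ℚ := fun e => if e ∈ F then 1 else 0

/-- The generic rank is twice the size of a maximum matching. -/
structure MATCH : Prop where
  ann : ∀ {M E : Type u} [AddCommGroup M] [Module ℚ M] [FiniteDimensional ℚ M] [Fintype E] [DecidableEq E]
    (D : Par M E) (F : Finset E), Mat D.pl ⊥ F → ∀ g : Dual ℚ M, (g ∈ D.N (one F) ↔ ∀ z ∈ sp D.pl F, g z = 0)
  mn : ∀ {M E : Type u} [AddCommGroup M] [Module ℚ M] [FiniteDimensional ℚ M] [Fintype E] [DecidableEq E]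
    (D : Par M E) (F : Finset E), Mx D.pl ⊥ F → D.Mn (one F)
  dim : ∀ {M E : Type u} [AddCommGroup M] [Module ℚ M] [FiniteDimensional ℚ M] [Fintype E] [DecidableEq E]
    (D : Par M E) (F : Finset E) (y : E → ℚ), Mx D.pl ⊥ F → D.Mn y →
    finrank ℚ M = finrank ℚ ↥(D.N y) + 2 * F.card

/-- Pairs modulo `A`. -/
structure QUO : Prop where
  /-- every family of planes is given by pairs -/
  par : ∀ {M E : Type u} [AddCommGroup M] [Module ℚ M] [FiniteDimensional ℚ M] [Fintype E] [DecidableEq E]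
    (P : E → Submodule ℚ M), (∀ e, finrank ℚ (P e) ≤ 2) → ∃ D : Par M E, D.pl = P
  le : ∀ {M E : Type u} [AddCommGroup M] [Module ℚ M] [FiniteDimensional ℚ M] [Fintype E] [DecidableEq E]
    (D : Par M E) (e : E), finrank ℚ (D.pl e) ≤ 2
  rk : ∀ {M E : Type u} [AddCommGroup M] [Module ℚ M] [FiniteDimensional ℚ M] [Fintype E] [DecidableEq E]
    (D : Par M E) (A : Submodule ℚ M) (F : Finset E),
    finrank ℚ ↥(sp (D.quo A).pl F) + finrank ℚ A = finrank ℚ ↥(sp D.pl F ⊔ A)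
  mat : ∀ {M E : Type u} [AddCommGroup M] [Module ℚ M] [FiniteDimensional ℚ M] [Fintype E] [DecidableEq E]
    (D : Par M E) (A : Submodule ℚ M) (F : Finset E), Mat (D.quo A).pl ⊥ F ↔ Mat D.pl A F
  mx : ∀ {M E : Type u} [AddCommGroup M] [Module ℚ M] [FiniteDimensional ℚ M] [Fintype E] [DecidableEq E]
    (D : Par M E) (A : Submodule ℚ M) (F : Finset E), Mx (D.quo A).pl ⊥ F ↔ Mx D.pl A F
  rl : ∀ {M E : Type u} [AddCommGroup M] [Module ℚ M] [FiniteDimensional ℚ M] [Fintype E] [DecidableEq E]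
    (D : Par M E) (A : Submodule ℚ M) (e f : E), Rl (D.quo A).pl ⊥ e f ↔ Rl D.pl A e f
  mem : ∀ {M E : Type u} [AddCommGroup M] [Module ℚ M] [FiniteDimensional ℚ M] [Fintype E] [DecidableEq E]
    (D : Par M E) (A : Submodule ℚ M) (F : Finset E) (z : M), A.mkQ z ∈ sp (D.quo A).pl F ↔ z ∈ sp D.pl F ⊔ A
  pl : ∀ {M E : Type u} [AddCommGroup M] [Module ℚ M] [FiniteDimensional ℚ M] [Fintype E] [DecidableEq E]
    (D : Par M E) (A : Submodule ℚ M) (e : E), D.pl e ⊓ A = ⊥ → finrank ℚ (D.pl e) = 2 →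
    finrank ℚ ((D.quo A).pl e) = 2
  nul : ∀ {M E : Type u} [AddCommGroup M] [Module ℚ M] [FiniteDimensional ℚ M] [Fintype E] [DecidableEq E]
    (D : Par M E) (A : Submodule ℚ M) (y : E → ℚ),
    finrank ℚ ↥((D.quo A).N y) = finrank ℚ ↥(A.dualAnnihilator ⊓ A.comap (D.L y))

/-- Maximum matchings modulo `A` and the kernels modulo `A`. -/
structure MATA : Prop where
  le : ∀ {M E : Type u} [AddCommGroup M] [Module ℚ M] [FiniteDimensional ℚ M] [Fintype E] [DecidableEq E]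
    (D : Par M E) (A : Submodule ℚ M) (y : E → ℚ) (F : Finset E), Mx D.pl A F →
    finrank ℚ M ≤ finrank ℚ A + finrank ℚ ↥(A.dualAnnihilator ⊓ A.comap (D.L y)) + 2 * F.card
  ex : ∀ {M E : Type u} [AddCommGroup M] [Module ℚ M] [FiniteDimensional ℚ M] [Fintype E] [DecidableEq E]
    (D : Par M E) (A : Submodule ℚ M), ∃ y : E → ℚ, (D.quo A).Mn y ∧
      ∀ F, Mx D.pl A F → finrank ℚ M = finrank ℚ A + finrank ℚ ↥(A.dualAnnihilator ⊓ A.comap (D.L y)) + 2 * F.card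

/-- Separation by maximum matchings, one vector. -/
structure SEPA : Prop where
  s1 : ∀ {M E : Type u} [AddCommGroup M] [Module ℚ M] [FiniteDimensional ℚ M] [Fintype E] [DecidableEq E]
    (D : Par M E) (y : E → ℚ), D.Mn y → ∀ z : M, (∃ g ∈ D.N y, g z ≠ 0) →
    ∃ F, Mx D.pl ⊥ F ∧ z ∉ sp D.pl F

/-- Separation by maximum matchings, two pairs. -/
structure SEPB : Prop where
  s2 : ∀ {M E : Type u} [AddCommGroup M] [Module ℚ M] [FiniteDimensional ℚ M] [Fintype E] [DecidableEq E]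
    (D : Par M E) (y : E → ℚ), D.Mn y → ∀ e f : E,
    finrank ℚ ↥(D.N y ⊓ LinearMap.ker (D.lam e) ⊓ LinearMap.ker (D.lam f)) + 2 ≤ finrank ℚ ↥(D.N y) →
    ∃ F, Mx D.pl ⊥ F ∧ 2 * F.card + 2 ≤ finrank ℚ ↥(sp D.pl (F ∪ {e, f}))

/-- A space in the span of all maximum matchings. -/
structure SEPC : Prop where
  s3 : ∀ {M E : Type u} [AddCommGroup M] [Module ℚ M] [FiniteDimensional ℚ M] [Fintype E] [DecidableEq E]
    (D : Par M E) (A : Submodule ℚ M), (∀ F, Mx D.pl ⊥ F → A ≤ sp D.pl F) →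
    ∀ F F' : Finset E, Mx D.pl ⊥ F → Mx D.pl A F' → 2 * F'.card + finrank ℚ A ≤ 2 * F.card

/-- Generic weights exist. -/
structure PARA : Prop where
  gen : ∀ {M E : Type u} [AddCommGroup M] [Module ℚ M] [FiniteDimensional ℚ M] [Fintype E] [DecidableEq E]
    (D : Par M E), (∀ e, finrank ℚ (D.pl e) = 2) → (∀ e, ∃ F, Mx D.pl ⊥ F ∧ ¬ D.pl e ≤ sp D.pl F) → ∃ U, Gen D U

/-- The vector `φ` of a move kills the old relations. -/
structure STAB : Prop where
  stab : ∀ {M E : Type u} [AddCommGroup M] [Module ℚ M] [FiniteDimensional ℚ M] [Fintype E] [DecidableEq E]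
    (D : Par M E) (U : Set (E → ℚ)), Gen D U → ∀ b : E → E, (∀ e f, b e = b f ↔ Rl D.pl ⊥ e f) →
    ∀ y ∈ U, ∀ e, ∀ g0 ∈ D.N y, D.lam e g0 ≠ 0 → ∀ φ : Dual ℚ M, D.L y φ = - D.lam e g0 → D.lam e φ = 0 →
    ∀ j, b e ≠ j → ∀ x ∈ sp D.pl (cls b j), (∀ g ∈ D.N y, g x = 0) → φ x = 0

/-- Relations between the classes. -/
structure RELA : Prop where
  all : ∀ {M E : Type u} [AddCommGroup M] [Module ℚ M] [FiniteDimensional ℚ M] [Fintype E] [DecidableEq E]
    (D : Par M E) (U : Set (E → ℚ)), Gen D U → ∀ b : E → E, (∀ e f, b e = b f ↔ Rl D.pl ⊥ e f) →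
    ∀ x : E → M, (∀ j, x j ∈ sp D.pl (cls b j)) → ∑ j, x j = 0 →
    ∀ y ∈ U, (∀ j, ∀ g ∈ D.N y, g (x j) = 0) → ∀ y' ∈ U, ∀ j, ∀ g ∈ D.N y', g (x j) = 0
  zero : ∀ {M E : Type u} [AddCommGroup M] [Module ℚ M] [FiniteDimensional ℚ M] [Fintype E] [DecidableEq E]
    (D : Par M E) (U : Set (E → ℚ)), Gen D U → ∀ b : E → E, (∀ e f, b e = b f ↔ Rl D.pl ⊥ e f) →
    (∀ z, (∀ F, Mx D.pl ⊥ F → z ∈ sp D.pl F) → z = 0) →
    ∀ x : E → M, (∀ j, x j ∈ sp D.pl (cls b j)) → ∑ j, x j = 0 →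
    ∀ y ∈ U, (∀ j, ∀ g ∈ D.N y, g (x j) = 0) → ∀ j, x j = 0

/-- The dimensions of the classes (all maximum matchings have spans with intersection zero). -/
structure DIMF : Prop where
  dim : ∀ {M E : Type u} [AddCommGroup M] [Module ℚ M] [FiniteDimensional ℚ M] [Fintype E] [DecidableEq E]
    (D : Par M E) (U : Set (E → ℚ)), Gen D U → ∀ b : E → E, (∀ e f, b e = b f ↔ Rl D.pl ⊥ e f) →
    (∀ z, (∀ F, Mx D.pl ⊥ F → z ∈ sp D.pl F) → z = 0) →
    ∃ r : E → ℕ, (∀ e, finrank ℚ ↥(sp D.pl (cls b (b e))) = 2 * r (b e) + 1) ∧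
      ∀ F, Mx D.pl ⊥ F → F.card = ∑ j ∈ Finset.univ.image b, r j

/-- The partition of the planes modulo `A`. -/
structure CORE : Prop where
  core : ∀ {M E : Type u} [AddCommGroup M] [Module ℚ M] [FiniteDimensional ℚ M] [Fintype E] [DecidableEq E]
    (P : E → Submodule ℚ M) (A : Submodule ℚ M), (∀ e, finrank ℚ (P e) = 2) → (∀ e, P e ⊓ A = ⊥) →
    (∀ z, (∀ F, Mx P A F → z ∈ sp P F ⊔ A) → z ∈ A) →
    ∃ (b : E → E) (r : E → ℕ), (∀ e f, b e = b f ↔ Rl P A e f) ∧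
      (∀ e, finrank ℚ ↥(sp P (cls b (b e)) ⊔ A) = 2 * r (b e) + 1 + finrank ℚ A) ∧
      ∀ F, Mx P A F → F.card = ∑ j ∈ Finset.univ.image b, r j

/-! ## Part II: optimal duals -/

/-- There is an optimal dual solution with critical blocks. -/
structure OPT : Prop where
  opt : ∀ {M E : Type u} [AddCommGroup M] [Module ℚ M] [FiniteDimensional ℚ M] [Fintype E] [DecidableEq E]
    (P : E → Submodule ℚ M), (∀ e, finrank ℚ (P e) = 2) →
    (∀ A : Submodule ℚ M, (∀ F, Mx P ⊥ F → A ≤ sp P F) → ∀ e, P e ⊓ A = ⊥) →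
    ∃ (A : Submodule ℚ M) (b : E → E) (r : E → ℕ), OD P A b r ∧
      (A = ⊥ → ∀ z, (∀ F, Mx P ⊥ F → z ∈ sp P F) → z = 0)

/-- Complementary slackness. -/
structure SLACK : Prop where
  lo : ∀ {M E : Type u} [AddCommGroup M] [Module ℚ M] [FiniteDimensional ℚ M] [Fintype E] [DecidableEq E]
    (P : E → Submodule ℚ M) (A : Submodule ℚ M) (b : E → E) (r : E → ℕ), (∀ e, finrank ℚ (P e) = 2) →
    OD P A b r → ∀ F, Mx P ⊥ F → ∀ e, (F ∩ cls b (b e)).card ≤ r (b e) + 1 ∧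
      finrank ℚ ↥(sp P (F ∩ cls b (b e)) ⊓ A) + r (b e) = (F ∩ cls b (b e)).card
  /-- a block with one more element than `r` spans its class modulo `A` -/
  full : ∀ {M E : Type u} [AddCommGroup M] [Module ℚ M] [FiniteDimensional ℚ M] [Fintype E] [DecidableEq E]
    (P : E → Submodule ℚ M) (A : Submodule ℚ M) (b : E → E) (r : E → ℕ), (∀ e, finrank ℚ (P e) = 2) →
    OD P A b r → ∀ F, Mx P ⊥ F → ∀ e, (F ∩ cls b (b e)).card = r (b e) + 1 →
      sp P (cls b (b e)) ≤ sp P (F ∩ cls b (b e)) ⊔ A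
  /-- a block with `r` elements: the others span `A` -/
  rest : ∀ {M E : Type u} [AddCommGroup M] [Module ℚ M] [FiniteDimensional ℚ M] [Fintype E] [DecidableEq E]
    (P : E → Submodule ℚ M) (A : Submodule ℚ M) (b : E → E) (r : E → ℕ), (∀ e, finrank ℚ (P e) = 2) →
    OD P A b r → ∀ F, Mx P ⊥ F → ∀ e, (F ∩ cls b (b e)).card = r (b e) → A ≤ sp P (F \ cls b (b e))
  /-- the same, if the class is not in the span of `F` -/
  dir : ∀ {M E : Type u} [AddCommGroup M] [Module ℚ M] [FiniteDimensional ℚ M] [Fintype E] [DecidableEq E]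
    (P : E → Submodule ℚ M) (A : Submodule ℚ M) (b : E → E) (r : E → ℕ), (∀ e, finrank ℚ (P e) = 2) →
    OD P A b r → ∀ F, Mx P ⊥ F → ∀ e, ¬ sp P (cls b (b e)) ≤ sp P F →
      (F ∩ cls b (b e)).card = r (b e) ∧ (sp P (cls b (b e)) ⊔ A) ⊓ sp P (F \ cls b (b e)) = A
  /-- some block has one more element if `A ≠ ⊥` -/
  ex : ∀ {M E : Type u} [AddCommGroup M] [Module ℚ M] [FiniteDimensional ℚ M] [Fintype E] [DecidableEq E]
    (P : E → Submodule ℚ M) (A : Submodule ℚ M) (b : E → E) (r : E → ℕ), (∀ e, finrank ℚ (P e) = 2) →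
    OD P A b r → A ≠ ⊥ → ∀ F, Mx P ⊥ F → ∃ e, (F ∩ cls b (b e)).card = r (b e) + 1

/-- A set with one relation. -/
structure CIRC : Prop where
  circ : ∀ {M E : Type u} [AddCommGroup M] [Module ℚ M] [FiniteDimensional ℚ M] [Fintype E] [DecidableEq E]
    (P : E → Submodule ℚ M) (A : Submodule ℚ M) (b : E → E) (r : E → ℕ), (∀ e, finrank ℚ (P e) = 2) →
    OD P A b r → A ≠ ⊥ → (∀ e, ∃ F, Mx P ⊥ F ∧ ¬ P e ≤ sp P F) → ∃ F w, Cr P b F w

/-- The set `F` with the relation `w`, and the blocks it meets. -/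
structure JC : Prop where
  /-- removing an element of the relation -/
  er : ∀ {M E : Type u} [AddCommGroup M] [Module ℚ M] [FiniteDimensional ℚ M] [Fintype E] [DecidableEq E]
    (P : E → Submodule ℚ M) (b : E → E) (F : Finset E) (w : E → M), (∀ e, finrank ℚ (P e) = 2) →
    Cr P b F w → ∀ f, w f ≠ 0 → Mx P ⊥ (F.erase f)
  /-- the relation is unique -/
  un : ∀ {M E : Type u} [AddCommGroup M] [Module ℚ M] [FiniteDimensional ℚ M] [Fintype E] [DecidableEq E]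
    (P : E → Submodule ℚ M) (b : E → E) (F : Finset E) (w : E → M), (∀ e, finrank ℚ (P e) = 2) →
    Cr P b F w → ∀ v : E → M, (∀ e, v e ∈ P e) → (∀ e, e ∉ F → v e = 0) → ∑ e ∈ F, v e = 0 →
    ∃ c : ℚ, ∀ e, v e = c • w e
  /-- the block of `f` -/
  bl : ∀ {M E : Type u} [AddCommGroup M] [Module ℚ M] [FiniteDimensional ℚ M] [Fintype E] [DecidableEq E]
    (P : E → Submodule ℚ M) (A : Submodule ℚ M) (b : E → E) (r : E → ℕ) (F : Finset E) (w : E → M),
    (∀ e, finrank ℚ (P e) = 2) → OD P A b r → Cr P b F w → ∀ f, w f ≠ 0 →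
    (F ∩ cls b (b f)).card = r (b f) + 1 ∧
    Mat P ⊥ (F ∩ cls b (b f)) ∧ Mat P ⊥ (F \ cls b (b f)) ∧
    (∑ e ∈ F ∩ cls b (b f), w e ≠ 0) ∧
    sp P (F ∩ cls b (b f)) ⊓ A = Submodule.span ℚ {∑ e ∈ F ∩ cls b (b f), w e} ∧
    sp P (cls b (b f)) ≤ sp P (F ∩ cls b (b f)) ⊔ A ∧
    A ≤ sp P (F \ cls b (b f)) ∧
    (sp P (cls b (b f)) ⊔ A) ⊓ sp P (F \ cls b (b f)) = A

/-! ## Part III: hypergraphs -/

open Classical in
/-- The hyperedges of `F` in the component of `u` with respect to `F'`. -/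
noncomputable def HG.inn {V E : Type u} [DecidableEq V] (H : HG V E) (F' F : Finset E) (u : V) : Finset E :=
  F.filter fun e => H.Con F' u (H.t e 0)

/-- Components and spans. -/
structure SPAN : Prop where
  rf : ∀ {V E : Type u} [Fintype V] [DecidableEq V] [Fintype E] [DecidableEq E] (H : HG V E) (F : Finset E) (u : V),
    H.Con F u u
  sy : ∀ {V E : Type u} [Fintype V] [DecidableEq V] [Fintype E] [DecidableEq E] (H : HG V E) (F : Finset E) (u v : V),
    H.Con F u v → H.Con F v u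
  tr : ∀ {V E : Type u} [Fintype V] [DecidableEq V] [Fintype E] [DecidableEq E] (H : HG V E) (F : Finset E)
    (u v w : V), H.Con F u v → H.Con F v w → H.Con F u w
  mono : ∀ {V E : Type u} [Fintype V] [DecidableEq V] [Fintype E] [DecidableEq E] (H : HG V E) (F F' : Finset E)
    (u v : V), F ⊆ F' → H.Con F u v → H.Con F' u v
  /-- the vertices of a hyperedge of `F` are connected -/
  ed : ∀ {V E : Type u} [Fintype V] [DecidableEq V] [Fintype E] [DecidableEq E] (H : HG V E) (F : Finset E) (e : E),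
    e ∈ F → ∀ i j, H.Con F (H.t e i) (H.t e j)
  /-- the planes -/
  two : ∀ {V E : Type u} [Fintype V] [DecidableEq V] [Fintype E] [DecidableEq E] (H : HG V E) (e : E),
    finrank ℚ (H.pl e) = 2
  pl : ∀ {V E : Type u} [Fintype V] [DecidableEq V] [Fintype E] [DecidableEq E] (H : HG V E) (e : E) (h : V → ℚ),
    h ∈ H.pl e ↔ (∀ v, (∀ i, v ≠ H.t e i) → h v = 0) ∧ ∑ v, h v = 0
  le : ∀ {V E : Type u} [Fintype V] [DecidableEq V] [Fintype E] [DecidableEq E] (H : HG V E) (F : Finset E) (e : E),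
    H.pl e ≤ sp H.pl F ↔ ∀ i j, H.Con F (H.t e i) (H.t e j)
  /-- the least equivalence relation -/
  least : ∀ {V E : Type u} [Fintype V] [DecidableEq V] [Fintype E] [DecidableEq E] (H : HG V E) (F : Finset E)
    (R : V → V → Prop), Equivalence R → (∀ e ∈ F, ∀ i j, R (H.t e i) (H.t e j)) →
    ∀ u v, H.Con F u v → R u v
  /-- the elements of the span: the sum over each component is zero -/
  mem : ∀ {V E : Type u} [Fintype V] [DecidableEq V] [Fintype E] [DecidableEq E] (H : HG V E) (F : Finset E)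
    (h : V → ℚ), h ∈ sp H.pl F ↔ ∀ u, ∀ C : Finset V, (∀ v, v ∈ C ↔ H.Con F u v) → ∑ v ∈ C, h v = 0
  /-- the span of the hyperedges in one component -/
  inn : ∀ {V E : Type u} [Fintype V] [DecidableEq V] [Fintype E] [DecidableEq E] (H : HG V E) (F : Finset E)
    (u : V) (h : V → ℚ), h ∈ sp H.pl (H.inn F F u) ↔ (∀ v, ¬ H.Con F u v → h v = 0) ∧ ∑ v, h v = 0
  /-- pairwise disconnected vertices -/
  cl : ∀ {V E : Type u} [Fintype V] [DecidableEq V] [Fintype E] [DecidableEq E] (H : HG V E) (F : Finset E)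
    (k : ℕ) (p : Fin k → V), (∀ i j, H.Con F (p i) (p j) → i = j) →
    finrank ℚ ↥(sp H.pl F) + k ≤ Fintype.card V

/-- The elements of the relation in a block lie in one component when another block is removed. -/
structure SAMEC : Prop where
  same : ∀ {V E : Type u} [Fintype V] [DecidableEq V] [Fintype E] [DecidableEq E] (H : HG V E)
    (A : Submodule ℚ (V → ℚ)) (b : E → E) (r : E → ℕ) (F : Finset E) (w : E → V → ℚ),
    OD H.pl A b r → Cr H.pl b F w → ∀ x, w x ≠ 0 → ∀ e e', w e ≠ 0 → w e' ≠ 0 → b e = b e' → b x ≠ b e →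
    H.Con (F \ cls b (b x)) (H.t e 0) (H.t e' 0)

/-- The part of the relation in one component of `F \ X` is a multiple of a pair. -/
structure PAIRY : Prop where
  pair : ∀ {V E : Type u} [Fintype V] [DecidableEq V] [Fintype E] [DecidableEq E] (H : HG V E)
    (b : E → E) (F : Finset E) (w : E → V → ℚ),
    Cr H.pl b F w → ∀ X : Finset E, (∃ x ∈ X, w x ≠ 0) → ∀ u : V,
    (∃ e ∈ H.inn (F \ X) (F \ X) u, w e ≠ 0) →
    ∃ (p q : V) (c : ℚ), p ≠ q ∧ c ≠ 0 ∧ H.Con (F \ X) u p ∧ H.Con (F \ X) u q ∧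
      ∑ e ∈ H.inn (F \ X) (F \ X) u, w e = c • dl p q

/-- The space `A` contains a pair. -/
structure NONX : Prop where
  ex : ∀ {V E : Type u} [Fintype V] [DecidableEq V] [Fintype E] [DecidableEq E] (H : HG V E)
    (A : Submodule ℚ (V → ℚ)) (b : E → E) (r : E → ℕ) (F : Finset E) (w : E → V → ℚ),
    OD H.pl A b r → Cr H.pl b F w → ∃ p q : V, p ≠ q ∧ dl p q ∈ A

/-- The always spanned space is zero if it contains no pair. -/
structure S10 : Prop where
  plane : ∀ {V E : Type u} [Fintype V] [DecidableEq V] [Fintype E] [DecidableEq E] (H : HG V E)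
    (A : Submodule ℚ (V → ℚ)), (∀ F, Mx H.pl ⊥ F → A ≤ sp H.pl F) → (∀ p q : V, p ≠ q → dl p q ∉ A) →
    ∀ e, (∃ F, Mx H.pl ⊥ F ∧ ¬ H.pl e ≤ sp H.pl F) → H.pl e ⊓ A = ⊥
  zero : ∀ {V E : Type u} [Fintype V] [DecidableEq V] [Fintype E] [DecidableEq E] (H : HG V E),
    (∀ p q : V, p ≠ q → ∃ F, Mx H.pl ⊥ F ∧ dl p q ∉ sp H.pl F) →
    ∀ z, (∀ F, Mx H.pl ⊥ F → z ∈ sp H.pl F) → z = 0

/-! ## Part IV: symmetric hypergraphs -/

/-- Automorphisms and matchings. -/
structure AUTM : Prop where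
  con : ∀ {V E : Type u} [Fintype V] [DecidableEq V] [Fintype E] [DecidableEq E] (H : HG V E) (a : H.Aut)
    (F : Finset E) (u v : V), H.Con (F.image a.q) (a.s u) (a.s v) ↔ H.Con F u v
  mx : ∀ {V E : Type u} [Fintype V] [DecidableEq V] [Fintype E] [DecidableEq E] (H : HG V E) (a : H.Aut)
    (F : Finset E), Mx H.pl ⊥ (F.image a.q) ↔ Mx H.pl ⊥ F
  all : ∀ {V E : Type u} [Fintype V] [DecidableEq V] [Fintype E] [DecidableEq E] (H : HG V E) (a : H.Aut)
    (u v : V), (∀ F, Mx H.pl ⊥ F → H.Con F (a.s u) (a.s v)) ↔ ∀ F, Mx H.pl ⊥ F → H.Con F u v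
  rl : ∀ {V E : Type u} [Fintype V] [DecidableEq V] [Fintype E] [DecidableEq E] (H : HG V E) (a : H.Aut)
    (e f : E), Rl H.pl ⊥ (a.q e) (a.q f) ↔ Rl H.pl ⊥ e f

/-- The case that the always spanned space is zero. -/
structure COUNT : Prop where
  le : ∀ {V E : Type u} [Fintype V] [DecidableEq V] [Fintype E] [DecidableEq E] (H : HG V E),
    (∀ u v, H.Con Finset.univ u v) → (∀ u v, ∃ a : H.Aut, a.s u = v) →
    (∀ z, (∀ F, Mx H.pl ⊥ F → z ∈ sp H.pl F) → z = 0) →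
    ∀ F, Mx H.pl ⊥ F → Fintype.card V ≤ 2 * F.card + 2

/-- Theorem 0. -/
structure THM0 : Prop where
  thm : ∀ {V E : Type u} [Fintype V] [DecidableEq V] [Fintype E] [DecidableEq E] (H : HG V E),
    (∀ u v, H.Con Finset.univ u v) → (∀ u v, ∃ a : H.Aut, a.s u = v) →
    (∀ e i j, ∃ a : H.Aut, a.q e = e ∧ a.s (H.t e i) = H.t e j) →
    ∃ F, Mat H.pl ⊥ F ∧ Fintype.card V ≤ 2 * F.card + 2

/-! ## Part V: groups -/

/-- The hypergraph of the cosets of `H` and `K`, where `k` gives the three cosets of `H` in `K H`. -/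
noncomputable def cos {G : Type u} [Group G] (H K : Subgroup G) (k : Fin 3 → G)
    (hk : ∀ i j, (k i)⁻¹ * k j ∈ H → i = j) : HG (G ⧸ H) (G ⧸ K) where
  t e i := ((e.out * k i : G) : G ⧸ H)
  inj := by
    intro e i j h
    apply hk
    have h1 : ((e.out * k i : G) : G ⧸ H) = ((e.out * k j : G) : G ⧸ H) := h
    rw [QuotientGroup.eq] at h1
    have h2 : (e.out * k i)⁻¹ * (e.out * k j) = (k i)⁻¹ * k j := by group
    rwa [h2] at h1

/-- The hyperforest of cosets. -/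
structure COSET : Prop where
  ex : ∀ {G : Type u} [Group G] [Fintype G] (H K : Subgroup G) [Fintype (G ⧸ H)] [DecidableEq (G ⧸ H)]
    [Fintype (G ⧸ K)] [DecidableEq (G ⧸ K)] (k : Fin 3 → G) (hk : ∀ i j, (k i)⁻¹ * k j ∈ H → i = j),
    (∀ i, k i ∈ K) → (∀ x ∈ K, ∃ i, (k i)⁻¹ * x ∈ H) → H ⊔ K = ⊤ →
    ∃ F : Finset (G ⧸ K), Mat (cos H K k hk).pl ⊥ F ∧ Fintype.card (G ⧸ H) ≤ 2 * F.card + 2
  /-- a matching modulo the choice of representatives: adding one hyperedge -/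
  con : ∀ {G : Type u} [Group G] [Fintype G] (H K : Subgroup G) [Fintype (G ⧸ H)] [DecidableEq (G ⧸ H)]
    [Fintype (G ⧸ K)] [DecidableEq (G ⧸ K)] (k : Fin 3 → G) (hk : ∀ i j, (k i)⁻¹ * k j ∈ H → i = j),
    (∀ i, k i ∈ K) → (∀ x ∈ K, ∃ i, (k i)⁻¹ * x ∈ H) →
    ∀ (F : Finset (G ⧸ K)) (g : G), (g : G ⧸ K) ∉ F → Mat (cos H K k hk).pl ⊥ (insert (g : G ⧸ K) F) →
    (∀ x ∈ K, (cos H K k hk).Con F (g : G ⧸ H) ((g * x : G) : G ⧸ H) → x ∈ H) ∧
    ∀ u v, (cos H K k hk).Con (insert (g : G ⧸ K) F) u v ↔ (cos H K k hk).Con F u v ∨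
      ∃ x ∈ K, ∃ y ∈ K, (cos H K k hk).Con F u ((g * x : G) : G ⧸ H) ∧
        (cos H K k hk).Con F ((g * y : G) : G ⧸ H) v

/-- Merging two cycles of a permutation. -/
structure MERGE : Prop where
  swap : ∀ {X : Type u} [Fintype X] [DecidableEq X] (σ : Equiv.Perm X) (p q : X), ¬ σ.SameCycle p q →
    ∀ x y, (σ * Equiv.swap p q).SameCycle x y ↔
      (σ.SameCycle x y ∨ (σ.SameCycle x p ∨ σ.SameCycle x q) ∧ (σ.SameCycle y p ∨ σ.SameCycle y q))

/-- The directed version: a permutation with few cycles. -/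
structure DIR : Prop where
  ex : ∀ {G : Type u} [Group G] [Fintype G] (a b : G), Subgroup.closure {a, b} = ⊤ → (a * b⁻¹) ^ 3 = 1 →
    ∃ π : Equiv.Perm G, (∀ x, π x = x * a ∨ π x = x * b) ∧
      (∀ x y z, π.SameCycle x y ∨ π.SameCycle x z ∨ π.SameCycle y z) ∧
      (Odd (Subgroup.zpowers a).index → ∀ x y, π.SameCycle x y)

/-- The converse. -/
structure DIRO : Prop where
  odd : ∀ {G : Type u} [Group G] [Fintype G] (a b : G), (a * b⁻¹) ^ 3 = 1 →
    ∀ π : Equiv.Perm G, (∀ x, π x = x * a ∨ π x = x * b) → (∀ x y, π.SameCycle x y) →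
    Odd (Subgroup.zpowers a).index

/-- The version with three involutions. -/
structure UND : Prop where
  ex : ∀ {G : Type u} [Group G] [Fintype G] (a b c : G), Subgroup.closure {a, b, c} = ⊤ → a ^ 2 = 1 → b ^ 2 = 1 →
    c ^ 2 = 1 → (b * c) ^ 3 = 1 →
    ∃ π : Equiv.Perm G, (∀ x, π x = x * a ∨ π x = x * b ∨ π x = x * c) ∧
      (∀ x y z, π.SameCycle x y ∨ π.SameCycle x z ∨ π.SameCycle y z) ∧
      (Odd (Subgroup.closure {a, b}).index → ∀ x y, π.SameCycle x y)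

/-- From permutations to sequences. -/
structure LISTD : Prop where
  path : ∀ {G : Type u} [Group G] [Fintype G] (S : Set G), Subgroup.closure S = ⊤ →
    ∀ π : Equiv.Perm G, (∀ x, x⁻¹ * π x ∈ S) →
    (∀ x y z, π.SameCycle x y ∨ π.SameCycle x z ∨ π.SameCycle y z) →
    ∃ s : Fin (Fintype.card G - 1) → G, (∀ i, s i ∈ S) ∧
      Function.Bijective fun j : Fin (Fintype.card G) => ((List.ofFn s).take j).prod
  cyc : ∀ {G : Type u} [Group G] [Fintype G] (S : Set G),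
    (∃ s : Fin (Fintype.card G) → G, (∀ i, s i ∈ S) ∧ (List.ofFn s).prod = 1 ∧
      Function.Bijective fun j : Fin (Fintype.card G) => ((List.ofFn s).take j).prod) ↔
    ∃ π : Equiv.Perm G, (∀ x, x⁻¹ * π x ∈ S) ∧ ∀ x y, π.SameCycle x y

end Pool.Agent.Lib.MP_688fd0_co.HF
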