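import Pool.Agent.Lib.MP_688fd0_co.HF.Interfaces

/-! Row MERGE: a permutation times a transposition merges two cycles. -/

set_option autoImplicit false

namespace Pool.Agent.Lib.MP_688fd0_co.HF

open Equiv Equiv.Perm

universe u

namespace H43

variable {X : Type u} [Fintype X] [DecidableEq X]

/-- The relation: same cycle, or both in the two merged cycles. -/
private def R (σ : Perm X) (p q x y : X) : Prop :=
  σ.SameCycle x y ∨ (σ.SameCycle x p ∨ σ.SameCycle x q) ∧ (σ.SameCycle y p ∨ σ.SameCycle y q)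

private lemma R_trans {σ : Perm X} {p q x y z : X} (h : R σ p q x y) (h' : R σ p q y z) :
    R σ p q x z := by
  rcases h with h | ⟨h1, h2⟩
  · rcases h' with h' | ⟨h3, h4⟩
    · exact Or.inl (h.trans h')
    · exact Or.inr ⟨h3.imp h.trans h.trans, h4⟩
  · rcases h' with h' | ⟨h3, h4⟩
    · exact Or.inr ⟨h1, h2.imp h'.symm.trans h'.symm.trans⟩
    · exact Or.inr ⟨h1, h4⟩

private lemma R_step (σ : Perm X) (p q z : X) : R σ p q z ((σ * Equiv.swap p q) z) := by
  rw [Perm.mul_apply]
  by_cases hp : z = p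
  · subst hp
    rw [Equiv.swap_apply_left]
    exact Or.inr ⟨Or.inl (SameCycle.refl _ _), Or.inr ((sameCycle_apply_left).2 (SameCycle.refl _ _))⟩
  · by_cases hq : z = q
    · subst hq
      rw [Equiv.swap_apply_right]
      exact Or.inr ⟨Or.inr (SameCycle.refl _ _), Or.inl ((sameCycle_apply_left).2 (SameCycle.refl _ _))⟩
    · rw [Equiv.swap_apply_of_ne_of_ne hp hq]
      exact Or.inl ((sameCycle_apply_right).2 (SameCycle.refl _ _))

private lemma R_pow (σ : Perm X) (p q x : X) (n : ℕ) :
    R σ p q x (((σ * Equiv.swap p q) ^ n) x) := by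
  induction n with
  | zero => exact Or.inl (SameCycle.refl _ _)
  | succ n ih =>
    rw [pow_succ', Perm.mul_apply]
    exact R_trans ih (R_step σ p q _)

private lemma cyc_aux {σ : Perm X} {p q : X} (h : ¬ σ.SameCycle p q) (n : ℕ) :
    (σ * Equiv.swap p q).SameCycle q ((σ ^ (n + 1)) p) := by
  have hs : (σ * Equiv.swap p q) q = σ p := by
    rw [Perm.mul_apply, Equiv.swap_apply_right]
  have h0 : (σ * Equiv.swap p q).SameCycle q (σ p) := by
    rw [← hs]
    exact (sameCycle_apply_right).2 (SameCycle.refl _ _)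
  induction n with
  | zero => simpa using h0
  | succ n ih =>
    rw [pow_succ', Perm.mul_apply]
    by_cases hp : (σ ^ (n + 1)) p = p
    · rw [hp]; exact h0
    · have hq : (σ ^ (n + 1)) p ≠ q := by
        intro hq
        exact h ⟨((n + 1 : ℕ) : ℤ), by rw [zpow_natCast]; exact hq⟩
      have : σ ((σ ^ (n + 1)) p) = (σ * Equiv.swap p q) ((σ ^ (n + 1)) p) := by
        rw [Perm.mul_apply, Equiv.swap_apply_of_ne_of_ne hp hq]
      rw [this]
      exact (sameCycle_apply_right).2 ih

private lemma cyc {σ : Perm X} {p q y : X} (h : ¬ σ.SameCycle p q) (hy : σ.SameCycle p y) :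
    (σ * Equiv.swap p q).SameCycle q y := by
  obtain ⟨i, hi, -, rfl⟩ := hy.exists_pow_eq'' 
  obtain ⟨j, rfl⟩ : ∃ j, i = j + 1 := ⟨i - 1, by omega⟩
  exact cyc_aux h j

private lemma far {σ : Perm X} {p q x : X} (hp : ¬ σ.SameCycle x p) (hq : ¬ σ.SameCycle x q)
    (n : ℕ) : ((σ * Equiv.swap p q) ^ n) x = (σ ^ n) x := by
  induction n with
  | zero => rfl
  | succ n ih =>
    rw [pow_succ', Perm.mul_apply, ih, pow_succ', Perm.mul_apply, Perm.mul_apply]
    congr 1
    refine Equiv.swap_apply_of_ne_of_ne ?_ ?_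
    · intro h; exact hp ⟨(n : ℤ), by rw [zpow_natCast]; exact h⟩
    · intro h; exact hq ⟨(n : ℤ), by rw [zpow_natCast]; exact h⟩

end H43

open H43 in
/-- Row MERGE. -/
theorem merge : MERGE.{u} where
  swap := by
    intro X _ _ σ p q h x y
    have h' : ¬ σ.SameCycle q p := fun h2 => h h2.symm
    have hsw : σ * Equiv.swap q p = σ * Equiv.swap p q := by rw [Equiv.swap_comm]
    have hP : ∀ z, σ.SameCycle p z → (σ * Equiv.swap p q).SameCycle q z := fun z hz => cyc h hz
    have hQ : ∀ z, σ.SameCycle q z → (σ * Equiv.swap p q).SameCycle p z := fun z hz => by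
      rw [← hsw]; exact cyc h' hz
    have hpq : (σ * Equiv.swap p q).SameCycle q p := hP p (SameCycle.refl _ _)
    have hA : ∀ z, (σ.SameCycle z p ∨ σ.SameCycle z q) → (σ * Equiv.swap p q).SameCycle q z := by
      rintro z (hz | hz)
      · exact hP z hz.symm
      · exact hpq.trans (hQ z hz.symm)
    constructor
    · intro hxy
      obtain ⟨i, -, rfl⟩ := hxy.exists_pow_eq'
      exact R_pow σ p q x i
    · rintro (hxy | ⟨h1, h2⟩)
      · by_cases hx : σ.SameCycle x p ∨ σ.SameCycle x q
        · exact (hA x hx).symm.trans (hA y (hx.imp hxy.symm.trans hxy.symm.trans))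
        · push Not at hx
          obtain ⟨i, -, rfl⟩ := hxy.exists_pow_eq'
          exact ⟨(i : ℤ), by rw [zpow_natCast]; exact far hx.1 hx.2 i⟩
      · exact (hA x h1).symm.trans (hA y h2)

end Pool.Agent.Lib.MP_688fd0_co.HF
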